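import Pool.Agent.N162.CW.Stm

/-!
# CW/SP: points in space on three surfaces, two of which are cylinders

Project CW of helper162, piece by helper296 (model: `N31/CV/A1.lean` by helper31).
-/

set_option autoImplicit false

open MvPolynomial

namespace Pool.Agent.N296.CW

open Pool.Agent.N162.CV

variable {Ω : Type} [Field Ω]

/-! ### division by two polynomials in different variables -/

/-- polynomials in the variable `i` -/
noncomputable def emb (i : Fin 2) : Polynomial Ω →ₐ[Ω] MvPolynomial (Fin 2) Ω :=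
  Polynomial.aeval (X i)

theorem emb_deg (i : Fin 2) (u : Polynomial Ω) : (emb i u).totalDegree ≤ u.natDegree := by
  unfold emb
  rw [Polynomial.aeval_eq_sum_range]
  refine totalDegree_finsetSum_le fun j hj => ?_
  refine (totalDegree_smul_le _ _).trans ?_
  rw [totalDegree_X_pow]
  rw [Finset.mem_range] at hj
  omega

theorem emb_deg_ge (i : Fin 2) (u : Polynomial Ω) : u.natDegree ≤ (emb i u).totalDegree := by
  have h1 := MvPolynomial.aeval_natDegree_le (n := 1) (emb i u) le_rfl
    (fun j : Fin 2 => if j = i then (Polynomial.X : Polynomial Ω) else 0) (by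
      intro j
      split_ifs
      · exact Polynomial.natDegree_X_le
      · simp)
  rw [mul_one] at h1
  have h2 : (aeval (fun j : Fin 2 => if j = i then (Polynomial.X : Polynomial Ω) else 0))
      (emb i u) = u := by
    have h : (aeval (fun j : Fin 2 => if j = i then (Polynomial.X : Polynomial Ω) else 0)).comp
        (emb i) = AlgHom.id Ω (Polynomial Ω) := by
      apply Polynomial.algHom_ext
      simp [emb]
    exact DFunLike.congr_fun h u
  rwa [h2] at h1

theorem mon_eq (m : Fin 2 →₀ ℕ) : (monomial m 1 : MvPolynomial (Fin 2) Ω) =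
    emb 0 (Polynomial.X ^ m 0) * emb 1 (Polynomial.X ^ m 1) := by
  rw [map_pow, map_pow, monomial_eq, C_1, one_mul, Finsupp.prod_fintype _ _ (fun _ => pow_zero _),
    Fin.prod_univ_two]
  simp [emb]

/-- the remainder -/
noncomputable def Rm (α β : Polynomial Ω) : MvPolynomial (Fin 2) Ω →ₗ[Ω] MvPolynomial (Fin 2) Ω :=
  (basisMonomials (Fin 2) Ω).constr Ω fun m =>
    emb 0 (Polynomial.X ^ m 0 % α) * emb 1 (Polynomial.X ^ m 1 % β)

theorem Rm_mon (α β : Polynomial Ω) (m : Fin 2 →₀ ℕ) : Rm α β (monomial m 1) =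
    emb 0 (Polynomial.X ^ m 0 % α) * emb 1 (Polynomial.X ^ m 1 % β) := by
  have h := (basisMonomials (Fin 2) Ω).constr_basis Ω (fun m =>
    emb 0 (Polynomial.X ^ m 0 % α) * emb 1 (Polynomial.X ^ m 1 % β)) m
  rw [coe_basisMonomials] at h
  exact h

theorem C_mul_mod' (c : Ω) (f α : Polynomial Ω) :
    (Polynomial.C c * f) % α = Polynomial.C c * (f % α) := by
  rw [Polynomial.mod_def, Polynomial.mod_def, ← Polynomial.smul_eq_C_mul,
    ← Polynomial.smul_eq_C_mul, Polynomial.smul_modByMonic]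

theorem Rm_mul (α β f g : Polynomial Ω) : Rm α β (emb 0 f * emb 1 g) =
    emb 0 (f % α) * emb 1 (g % β) := by
  induction f using Polynomial.induction_on' with
  | add p q hp hq =>
    rw [Polynomial.add_mod, map_add, map_add, add_mul, add_mul, map_add, hp, hq]
  | monomial n a =>
    induction g using Polynomial.induction_on' with
    | add p q hp hq =>
      rw [Polynomial.add_mod, map_add, map_add, mul_add, mul_add, map_add, hp, hq]
    | monomial n' a' =>
      obtain ⟨m, hm0, hm1⟩ : ∃ m : Fin 2 →₀ ℕ, m 0 = n ∧ m 1 = n' :=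
        ⟨Finsupp.equivFunOnFinite.symm ![n, n'], by simp, by simp⟩
      have h1 := Rm_mon α β m
      rw [mon_eq, hm0, hm1] at h1
      rw [← Polynomial.C_mul_X_pow_eq_monomial, ← Polynomial.C_mul_X_pow_eq_monomial,
        C_mul_mod', C_mul_mod']
      have e : ∀ (i : Fin 2) (c : Ω) (p : Polynomial Ω), emb i (Polynomial.C c * p) =
          c • emb i p := by
        intro i c p
        rw [← Polynomial.smul_eq_C_mul, map_smul]
      rw [e, e, e, e, smul_mul_smul_comm, smul_mul_smul_comm, map_smul, h1]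

theorem Rm_ideal (α β : Polynomial Ω) {P : MvPolynomial (Fin 2) Ω}
    (h : P ∈ Ideal.span {emb 0 α, emb 1 β}) : Rm α β P = 0 := by
  obtain ⟨s, t, rfl⟩ := Ideal.mem_span_pair.1 h
  have h1 : ∀ s : MvPolynomial (Fin 2) Ω, Rm α β (s * emb 0 α) = 0 := by
    intro s
    induction s using MvPolynomial.induction_on' with
    | add p q hp hq => rw [add_mul, map_add, hp, hq, add_zero]
    | monomial m c =>
      have e0 : (monomial m c : MvPolynomial (Fin 2) Ω) = c • monomial m 1 := by
        rw [smul_monomial, smul_eq_mul, mul_one]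
      rw [e0, smul_mul_assoc, map_smul, mon_eq, mul_right_comm, ← map_mul, Rm_mul]
      have : (Polynomial.X ^ m 0 * α) % α = 0 := by
        rw [EuclideanDomain.mod_eq_zero]
        exact dvd_mul_left _ _
      rw [this, map_zero (emb 0), zero_mul, smul_zero]
  have h2 : ∀ s : MvPolynomial (Fin 2) Ω, Rm α β (s * emb 1 β) = 0 := by
    intro s
    induction s using MvPolynomial.induction_on' with
    | add p q hp hq => rw [add_mul, map_add, hp, hq, add_zero]
    | monomial m c =>
      have e0 : (monomial m c : MvPolynomial (Fin 2) Ω) = c • monomial m 1 := by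
        rw [smul_monomial, smul_eq_mul, mul_one]
      rw [e0, smul_mul_assoc, map_smul, mon_eq, mul_assoc, ← map_mul, Rm_mul]
      have : (Polynomial.X ^ m 1 * β) % β = 0 := by
        rw [EuclideanDomain.mod_eq_zero]
        exact dvd_mul_left _ _
      rw [this, map_zero (emb 1), mul_zero, smul_zero]
  rw [map_add, h1, h2, add_zero]

theorem mod_deg (f α : Polynomial Ω) (hα : 1 ≤ α.natDegree) : (f % α).natDegree ≤ α.natDegree - 1 := by
  have := Polynomial.natDegree_mod_lt f (q := α) (by omega)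
  omega

theorem mod_deg_le (f α : Polynomial Ω) (hα : 1 ≤ α.natDegree) :
    (f % α).natDegree ≤ f.natDegree := by
  by_cases h : f.natDegree < α.natDegree
  · have hα0 : α ≠ 0 := by rintro rfl; simp at hα
    have h1 : f % α = f := by
      rw [Polynomial.mod_eq_self_iff hα0]
      exact Polynomial.degree_lt_degree h
    rw [h1]
  · have := Polynomial.natDegree_mod_lt f (q := α) (by omega)
    omega

theorem div_deg (f α : Polynomial Ω) (hα : 1 ≤ α.natDegree) :
    (f / α * α).natDegree ≤ f.natDegree := by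
  have h1 : f / α * α = f - f % α := by
    have := EuclideanDomain.div_add_mod f α
    linear_combination this
  rw [h1]
  exact (Polynomial.natDegree_sub_le _ _).trans (max_le le_rfl (mod_deg_le f α hα))

theorem tm {P Q : MvPolynomial (Fin 2) Ω} {i j : ℕ} (hP : P.totalDegree ≤ i)
    (hQ : Q.totalDegree ≤ j) : (P * Q).totalDegree ≤ i + j :=
  (totalDegree_mul _ _).trans (add_le_add hP hQ)

theorem emb_deg' (i : Fin 2) {u : Polynomial Ω} {n : ℕ} (h : u.natDegree ≤ n) :
    (emb i u).totalDegree ≤ n := (emb_deg i u).trans h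

theorem divide (α β : Polynomial Ω) (hα : 1 ≤ α.natDegree) (hβ : 1 ≤ β.natDegree)
    (P : MvPolynomial (Fin 2) Ω) (k : ℕ) (hP : P.totalDegree ≤ k) :
    ∃ u v : MvPolynomial (Fin 2) Ω, P = u * emb 0 α + v * emb 1 β + Rm α β P ∧
      (u * emb 0 α).totalDegree ≤ k ∧ (v * emb 1 β).totalDegree ≤ k ∧
      (Rm α β P).totalDegree ≤ α.natDegree + β.natDegree - 2 := by
  classical
  have hmon : ∀ m ∈ P.support, ∃ u v : MvPolynomial (Fin 2) Ω,
      (monomial m (coeff m P) : MvPolynomial (Fin 2) Ω) = u * emb 0 α + v * emb 1 β +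
        Rm α β (monomial m (coeff m P)) ∧
      (u * emb 0 α).totalDegree ≤ k ∧ (v * emb 1 β).totalDegree ≤ k ∧
      (Rm α β (monomial m (coeff m P))).totalDegree ≤ α.natDegree + β.natDegree - 2 := by
    intro m hm
    have hmk : m 0 + m 1 ≤ k := by
      have := (le_totalDegree hm).trans hP
      rwa [Finsupp.sum_fintype _ _ (fun _ => rfl), Fin.sum_univ_two] at this
    have e0 : (monomial m (coeff m P) : MvPolynomial (Fin 2) Ω) = coeff m P • monomial m 1 := by
      rw [smul_monomial, smul_eq_mul, mul_one]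
    obtain ⟨c, hc⟩ : ∃ c, c = coeff m P := ⟨_, rfl⟩
    rw [e0, map_smul, Rm_mon, mon_eq, ← hc]
    have d0 : (Polynomial.X ^ m 0 : Polynomial Ω).natDegree ≤ m 0 :=
      Polynomial.natDegree_X_pow_le _
    have d1 : (Polynomial.X ^ m 1 : Polynomial Ω).natDegree ≤ m 1 :=
      Polynomial.natDegree_X_pow_le _
    have q0 := EuclideanDomain.div_add_mod (Polynomial.X ^ m 0) α
    have q1 := EuclideanDomain.div_add_mod (Polynomial.X ^ m 1) β
    refine ⟨c • (emb 0 (Polynomial.X ^ m 0 / α) * emb 1 (Polynomial.X ^ m 1)),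
      c • (emb 0 (Polynomial.X ^ m 0 % α) * emb 1 (Polynomial.X ^ m 1 / β)), ?_, ?_, ?_, ?_⟩
    · rw [smul_mul_assoc, smul_mul_assoc, ← smul_add, ← smul_add]
      congr 1
      have e1 : emb 0 (Polynomial.X ^ m 0) = emb 0 α * emb 0 (Polynomial.X ^ m 0 / α) +
          emb 0 (Polynomial.X ^ m 0 % α) := by rw [← map_mul, ← map_add, q0]
      have e2 : emb 1 (Polynomial.X ^ m 1) = emb 1 β * emb 1 (Polynomial.X ^ m 1 / β) +
          emb 1 (Polynomial.X ^ m 1 % β) := by rw [← map_mul, ← map_add, q1]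
      calc emb 0 (Polynomial.X ^ m 0) * emb 1 (Polynomial.X ^ m 1) =
          (emb 0 α * emb 0 (Polynomial.X ^ m 0 / α) + emb 0 (Polynomial.X ^ m 0 % α)) *
            emb 1 (Polynomial.X ^ m 1) := by rw [← e1]
        _ = emb 0 (Polynomial.X ^ m 0 / α) * emb 1 (Polynomial.X ^ m 1) * emb 0 α +
            emb 0 (Polynomial.X ^ m 0 % α) * (emb 1 β * emb 1 (Polynomial.X ^ m 1 / β) +
              emb 1 (Polynomial.X ^ m 1 % β)) := by rw [← e2]; ring
        _ = _ := by ring
    · rw [smul_mul_assoc]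
      refine (totalDegree_smul_le _ _).trans ?_
      rw [mul_right_comm, ← map_mul]
      exact (tm (emb_deg' 0 (div_deg _ α hα)) (emb_deg' 1 d1)).trans (by omega)
    · rw [smul_mul_assoc]
      refine (totalDegree_smul_le _ _).trans ?_
      rw [mul_assoc, ← map_mul]
      exact (tm (emb_deg' 0 (mod_deg_le _ α hα)) (emb_deg' 1 (div_deg _ β hβ))).trans (by omega)
    · refine (totalDegree_smul_le _ _).trans ?_
      exact (tm (emb_deg' 0 (mod_deg _ α hα)) (emb_deg' 1 (mod_deg _ β hβ))).trans (by omega)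
  choose! u v h1 h2 h3 h4 using hmon
  refine ⟨∑ m ∈ P.support, u m, ∑ m ∈ P.support, v m, ?_, ?_, ?_, ?_⟩
  · conv_lhs => rw [P.as_sum]
    have e : Rm α β P = ∑ m ∈ P.support, Rm α β (monomial m (coeff m P)) := by
      conv_lhs => rw [P.as_sum]
      rw [map_sum]
    rw [e, Finset.sum_mul, Finset.sum_mul, ← Finset.sum_add_distrib, ← Finset.sum_add_distrib]
    exact Finset.sum_congr rfl fun m hm => h1 m hm
  · rw [Finset.sum_mul]
    exact totalDegree_finsetSum_le fun m hm => h2 m hm
  · rw [Finset.sum_mul]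
    exact totalDegree_finsetSum_le fun m hm => h3 m hm
  · have e : Rm α β P = ∑ m ∈ P.support, Rm α β (monomial m (coeff m P)) := by
      conv_lhs => rw [P.as_sum]
      rw [map_sum]
    rw [e]
    exact totalDegree_finsetSum_le fun m hm => h4 m hm

/-- the claim (3) -/
theorem claim [IsAlgClosed Ω] (α β : Polynomial Ω) (γ : MvPolynomial (Fin 2) Ω)
    (hα : 1 ≤ α.natDegree) (hβ : 1 ≤ β.natDegree)
    (h0 : ∀ z : Fin 2 → Ω, eval z (emb 0 α) = 0 → eval z (emb 1 β) = 0 → eval z γ ≠ 0)
    (c k : ℕ) (hγ : γ.totalDegree ≤ c) (hk : α.natDegree + β.natDegree + c ≤ k + 2)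
    (P : MvPolynomial (Fin 2) Ω) (hP : P.totalDegree ≤ k) :
    ∃ u v w : MvPolynomial (Fin 2) Ω, P = u * emb 0 α + v * emb 1 β + w * γ ∧
      (u * emb 0 α).totalDegree ≤ k ∧ (v * emb 1 β).totalDegree ≤ k ∧ w.totalDegree + c ≤ k := by
  have h1 : Ideal.span {emb 0 α, emb 1 β, γ} = ⊤ := by
    rw [← Ideal.radical_eq_top, ← vanishingIdeal_zeroLocus_eq_radical (K := Ω)]
    rw [Ideal.eq_top_iff_one, mem_vanishingIdeal_iff]
    intro z hz
    exfalso
    rw [mem_zeroLocus_iff] at hz
    refine h0 z (hz _ (Ideal.subset_span (by simp))) (hz _ (Ideal.subset_span (by simp)))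
      (hz _ (Ideal.subset_span (by simp)))
  have h2 : (1 : MvPolynomial (Fin 2) Ω) ∈ Ideal.span {emb 0 α, emb 1 β, γ} := by
    rw [h1]; trivial
  obtain ⟨s, t, w0, hw0⟩ : ∃ s t w0 : MvPolynomial (Fin 2) Ω,
      1 = s * emb 0 α + t * emb 1 β + w0 * γ := by
    rw [Ideal.mem_span_insert] at h2
    obtain ⟨s, z, hz, h3⟩ := h2
    obtain ⟨t, w0, h4⟩ := Ideal.mem_span_pair.1 hz
    exact ⟨s, t, w0, by rw [h3, ← h4]; ring⟩
  obtain ⟨w, hw⟩ : ∃ w, w = Rm α β (P * w0) := ⟨_, rfl⟩
  obtain ⟨u1, v1, e1, -, -, e4⟩ := divide α β hα hβ (P * w0) _ le_rfl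
  rw [← hw] at e1 e4
  have hwc : w.totalDegree + c ≤ k := by omega
  have hmem : P - w * γ ∈ Ideal.span {emb 0 α, emb 1 β} := by
    refine Ideal.mem_span_pair.2 ⟨P * s + u1 * γ, P * t + v1 * γ, ?_⟩
    linear_combination (-P) * hw0 - γ * e1
  have hdeg : (P - w * γ).totalDegree ≤ k := by
    refine (totalDegree_sub _ _).trans (max_le hP ?_)
    exact (tm le_rfl hγ).trans hwc
  obtain ⟨u, v, f1, f2, f3, -⟩ := divide α β hα hβ (P - w * γ) k hdeg
  rw [Rm_ideal α β hmem, add_zero] at f1
  refine ⟨u, v, w, ?_, f2, f3, hwc⟩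
  linear_combination f1

/-! ### the plane `x = x₀` in space -/

/-- restriction to the plane `x = x₀` -/
noncomputable def sp (x0 : Ω) : MvPolynomial (Fin 3) Ω →ₐ[Ω] MvPolynomial (Fin 2) Ω :=
  aeval ![C x0, X 0, X 1]

/-- extension of functions on the plane -/
noncomputable def tau : MvPolynomial (Fin 2) Ω →ₐ[Ω] MvPolynomial (Fin 3) Ω :=
  aeval ![X 1, X 2]

/-- the first cylinder -/
noncomputable def cA : MvPolynomial (Fin 2) Ω →ₐ[Ω] MvPolynomial (Fin 3) Ω := aeval ![X 0, X 1]

/-- the second cylinder -/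
noncomputable def cB : MvPolynomial (Fin 2) Ω →ₐ[Ω] MvPolynomial (Fin 3) Ω := aeval ![X 0, X 2]

/-- restriction to the line `x = x₀` in the plane -/
noncomputable def li (x0 : Ω) : MvPolynomial (Fin 2) Ω →ₐ[Ω] Polynomial Ω :=
  aeval ![Polynomial.C x0, Polynomial.X]

theorem aeval_deg {σ τ : Type} (f : σ → MvPolynomial τ Ω) (hf : ∀ i, (f i).totalDegree ≤ 1)
    (P : MvPolynomial σ Ω) : (aeval f P).totalDegree ≤ P.totalDegree := by
  rw [aeval_def, eval₂_eq]
  refine totalDegree_finsetSum_le fun m hm => ?_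
  refine (totalDegree_mul _ _).trans ?_
  rw [algebraMap_eq, totalDegree_C, zero_add]
  refine (totalDegree_finsetProd _ _).trans ?_
  refine le_trans ?_ (le_totalDegree hm)
  unfold Finsupp.sum
  refine Finset.sum_le_sum fun i _ => ?_
  refine (totalDegree_pow _ _).trans ?_
  have := hf i
  nlinarith

theorem sp_deg (x0 : Ω) (P : MvPolynomial (Fin 3) Ω) : (sp x0 P).totalDegree ≤ P.totalDegree := by
  refine aeval_deg _ (fun i => ?_) P
  fin_cases i
  · simp
  · simp
  · simp

theorem tau_deg (P : MvPolynomial (Fin 2) Ω) : (tau P).totalDegree ≤ P.totalDegree := by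
  refine aeval_deg _ (fun i => ?_) P
  fin_cases i
  · simp
  · simp

theorem cA_deg (P : MvPolynomial (Fin 2) Ω) : (cA P).totalDegree ≤ P.totalDegree := by
  refine aeval_deg _ (fun i => ?_) P
  fin_cases i
  · simp
  · simp

theorem cB_deg (P : MvPolynomial (Fin 2) Ω) : (cB P).totalDegree ≤ P.totalDegree := by
  refine aeval_deg _ (fun i => ?_) P
  fin_cases i
  · simp
  · simp

theorem sp_tau (x0 : Ω) (P : MvPolynomial (Fin 2) Ω) : sp x0 (tau P) = P := by
  have h : (sp x0).comp tau = AlgHom.id Ω (MvPolynomial (Fin 2) Ω) := by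
    apply MvPolynomial.algHom_ext
    intro i
    fin_cases i <;> simp [sp, tau]
  exact DFunLike.congr_fun h P

theorem sp_cA (x0 : Ω) (P : MvPolynomial (Fin 2) Ω) : sp x0 (cA P) = emb 0 (li x0 P) := by
  have h : (sp x0).comp cA = (emb 0).comp (li x0) := by
    apply MvPolynomial.algHom_ext
    intro i
    fin_cases i
    · simp only [sp, cA, emb, li, AlgHom.comp_apply, aeval_X]
      simp [Polynomial.aeval_C, algebraMap_eq]
    · simp [sp, cA, emb, li]
  exact DFunLike.congr_fun h P

theorem sp_cB (x0 : Ω) (P : MvPolynomial (Fin 2) Ω) : sp x0 (cB P) = emb 1 (li x0 P) := by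
  have h : (sp x0).comp cB = (emb 1).comp (li x0) := by
    apply MvPolynomial.algHom_ext
    intro i
    fin_cases i
    · simp only [sp, cB, emb, li, AlgHom.comp_apply, aeval_X]
      simp [Polynomial.aeval_C, algebraMap_eq]
    · simp [sp, cB, emb, li]
  exact DFunLike.congr_fun h P

/-- the plane -/
noncomputable def ell (x0 : Ω) : MvPolynomial (Fin 3) Ω := X 0 - C x0

theorem ell_dvd (x0 : Ω) (P : MvPolynomial (Fin 3) Ω) : ell x0 ∣ P - tau (sp x0 P) := by
  rw [← Ideal.mem_span_singleton, ← Ideal.Quotient.eq]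
  have h : Ideal.Quotient.mkₐ Ω (Ideal.span {ell x0}) =
      (Ideal.Quotient.mkₐ Ω (Ideal.span {ell x0})).comp (tau.comp (sp x0)) := by
    apply MvPolynomial.algHom_ext
    intro i
    fin_cases i
    · show Ideal.Quotient.mk (Ideal.span {ell x0}) (X 0) =
        Ideal.Quotient.mk (Ideal.span {ell x0}) (tau (sp x0 (X 0)))
      rw [Ideal.Quotient.eq, Ideal.mem_span_singleton]
      have : tau (sp x0 (X 0)) = C x0 := by
        simp [sp, tau, algebraMap_eq]
      rw [this]
      exact dvd_refl _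
    · simp [sp, tau]
    · simp [sp, tau]
  exact DFunLike.congr_fun h P

theorem ell_deg (x0 : Ω) : 1 ≤ (ell x0).totalDegree := by
  by_contra hc
  have h1 : (ell x0).totalDegree = 0 := by omega
  rw [totalDegree_eq_zero_iff_eq_C] at h1
  have h2 := congrArg (eval (fun _ : Fin 3 => x0 + 1)) h1
  have h3 := congrArg (eval (fun _ : Fin 3 => x0)) h1
  rw [eval_C] at h2 h3
  rw [← h3] at h2
  simp [ell] at h2

theorem li_natDegree_le (x0 : Ω) (A : MvPolynomial (Fin 2) Ω) :
    (li x0 A).natDegree ≤ A.totalDegree := by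
  have h1 := MvPolynomial.aeval_natDegree_le (n := 1) A le_rfl
    ![Polynomial.C x0, Polynomial.X] (by
      intro i
      fin_cases i
      · simp
      · exact Polynomial.natDegree_X_le)
  rwa [mul_one] at h1

theorem li_natDegree (x0 : Ω) (A : MvPolynomial (Fin 2) Ω) (hA : MonicY A) :
    (li x0 A).natDegree = A.totalDegree := by
  classical
  refine Polynomial.natDegree_eq_of_le_of_coeff_ne_zero (li_natDegree_le x0 A) ?_
  have e : (li x0 A).coeff A.totalDegree = A.coeff (Finsupp.single 1 A.totalDegree) := by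
    unfold li
    rw [aeval_def, eval₂_eq', Polynomial.finsetSum_coeff,
      Finset.sum_eq_single (Finsupp.single 1 A.totalDegree)]
    · rw [Fin.prod_univ_two]
      simp
    · intro m hm hne
      rw [Fin.prod_univ_two]
      simp only [Matrix.cons_val_zero, Matrix.cons_val_one]
      rw [Polynomial.algebraMap_apply, Algebra.algebraMap_self, RingHom.id_apply,
        Polynomial.coeff_C_mul, ← Polynomial.C_pow, Polynomial.coeff_C_mul, Polynomial.coeff_X_pow,
        if_neg, mul_zero, mul_zero]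
      intro h
      apply hne
      have h2 := le_totalDegree hm
      rw [Finsupp.sum_fintype _ _ (fun _ => rfl), Fin.sum_univ_two] at h2
      ext i
      fin_cases i
      · show m 0 = (Finsupp.single (1 : Fin 2) A.totalDegree) 0
        rw [Finsupp.single_eq_of_ne (by decide)]
        omega
      · show m 1 = (Finsupp.single (1 : Fin 2) A.totalDegree) 1
        rw [Finsupp.single_eq_same, h]
    · intro h
      rw [notMem_support_iff.1 h, map_zero, zero_mul, Polynomial.coeff_zero]
  rw [e]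
  exact hA

/-- products with a cylinder -/
theorem prod_deg {u α : MvPolynomial (Fin 2) Ω} {A : MvPolynomial (Fin 3) Ω} {a k : ℕ}
    (hα : a ≤ α.totalDegree) (ha : 1 ≤ a) (hA : A.totalDegree ≤ a) (hu : (u * α).totalDegree ≤ k) :
    (tau u * A).totalDegree ≤ k := by
  by_cases hu0 : u = 0
  · rw [hu0, map_zero, zero_mul, totalDegree_zero]
    omega
  · have hα0 : α ≠ 0 := by
      rintro rfl
      rw [totalDegree_zero] at hα
      omega
    have h1 := totalDegree_mul_of_isDomain hu0 hα0
    refine (totalDegree_mul _ _).trans ?_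
    have := tau_deg u
    omega

theorem step [IsAlgClosed Ω] {A B : MvPolynomial (Fin 2) Ω} {G : MvPolynomial (Fin 3) Ω} {x0 : Ω}
    (hA : MonicY A) (hB : MonicY B) (hA1 : 1 ≤ A.totalDegree) (hB1 : 1 ≤ B.totalDegree)
    (hx0 : ∀ q : Fin 3 → Ω, eval q (cA A) = 0 → eval q (cB B) = 0 → eval q G = 0 → q 0 ≠ x0)
    {k : ℕ} (hk : A.totalDegree + B.totalDegree + G.totalDegree ≤ k + 2)
    {P : MvPolynomial (Fin 3) Ω} (hP : P.totalDegree ≤ k) :
    ∃ U V W Q : MvPolynomial (Fin 3) Ω, P = U * cA A + V * cB B + W * G + ell x0 * Q ∧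
      Q.totalDegree ≤ k - 1 := by
  have hα := li_natDegree x0 A hA
  have hβ := li_natDegree x0 B hB
  obtain ⟨u, v, w, h1, h2, h3, h4⟩ := claim (li x0 A) (li x0 B) (sp x0 G) (by omega) (by omega)
    (by
      intro z hz1 hz2 hz3
      have key : ∀ H : MvPolynomial (Fin 3) Ω, eval z (sp x0 H) = eval ![x0, z 0, z 1] H := by
        intro H
        have h : ((aeval z).comp (sp x0) : MvPolynomial (Fin 3) Ω →ₐ[Ω] Ω) =
            aeval ![x0, z 0, z 1] := by
          apply MvPolynomial.algHom_ext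
          intro i
          fin_cases i <;> simp [sp, algebraMap_eq]
        exact DFunLike.congr_fun h H
      rw [← sp_cA, key] at hz1
      rw [← sp_cB, key] at hz2
      rw [key] at hz3
      exact hx0 _ hz1 hz2 hz3 rfl)
    G.totalDegree k (sp_deg x0 G) (by omega) (sp x0 P) ((sp_deg x0 P).trans hP)
  obtain ⟨W0, hW⟩ : ∃ W0, W0 = P - (tau u * cA A + tau v * cB B + tau w * G) := ⟨_, rfl⟩
  have h5 : sp x0 W0 = 0 := by
    rw [hW, map_sub, map_add, map_add, map_mul, map_mul, map_mul, sp_tau, sp_tau, sp_tau, sp_cA,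
      sp_cB, h1, sub_self]
  obtain ⟨Q, hQ⟩ := ell_dvd x0 W0
  rw [h5, map_zero, sub_zero] at hQ
  refine ⟨tau u, tau v, tau w, Q, ?_, ?_⟩
  · rw [← hQ, hW]; ring
  · by_cases hQ0 : Q = 0
    · rw [hQ0, totalDegree_zero]; omega
    · have h6 : ell x0 ≠ 0 := by
        intro h
        have := ell_deg x0
        rw [h, totalDegree_zero] at this
        omega
      have h7 := totalDegree_mul_of_isDomain h6 hQ0
      rw [← hQ] at h7
      have h8 : W0.totalDegree ≤ k := by
        rw [hW]
        refine (totalDegree_sub _ _).trans (max_le hP ?_)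
        refine (totalDegree_add _ _).trans (max_le ?_ ?_)
        · refine (totalDegree_add _ _).trans (max_le ?_ ?_)
          · refine prod_deg ?_ hA1 (cA_deg A) h2
            have := emb_deg_ge 0 (li x0 A)
            omega
          · refine prod_deg ?_ hB1 (cB_deg B) h3
            have := emb_deg_ge 1 (li x0 B)
            omega
        · refine (totalDegree_mul _ _).trans ?_
          have := tau_deg w
          omega
      have := ell_deg x0
      omega

/-! ### the end -/

theorem interp [DecidableEq (Fin 3 → Ω)] (S : Finset (Fin 3 → Ω)) {q0 : Fin 3 → Ω} (hq0 : q0 ∈ S) :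
    ∃ P : MvPolynomial (Fin 3) Ω, P.totalDegree ≤ S.card ∧ eval q0 P ≠ 0 ∧
      ∀ q ∈ S, q ≠ q0 → eval q P = 0 := by
  have h : ∀ q : Fin 3 → Ω, ∃ κ : Fin 3, q ∈ S.erase q0 → q κ ≠ q0 κ := by
    intro q
    by_cases hq : q ∈ S.erase q0
    · rw [Finset.mem_erase] at hq
      obtain ⟨κ, hκ⟩ := Function.ne_iff.1 hq.1
      exact ⟨κ, fun _ => hκ⟩
    · exact ⟨0, fun h => absurd h hq⟩
  choose κ hκ using h
  refine ⟨∏ q ∈ S.erase q0, (X (κ q) - C (q (κ q))), ?_, ?_, ?_⟩
  · refine (totalDegree_finsetProd _ _).trans ?_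
    calc ∑ q ∈ S.erase q0, (X (κ q) - C (q (κ q)) : MvPolynomial (Fin 3) Ω).totalDegree
        ≤ ∑ q ∈ S.erase q0, 1 := by
          refine Finset.sum_le_sum fun i _ => ?_
          refine (totalDegree_sub _ _).trans (max_le ?_ ?_)
          · rw [totalDegree_X]
          · rw [totalDegree_C]; omega
      _ = (S.erase q0).card := by simp
      _ ≤ S.card := Finset.card_le_card (Finset.erase_subset _ _)
  · rw [map_prod]
    refine Finset.prod_ne_zero_iff.2 fun i hi => ?_
    simp only [map_sub, eval_X, eval_C]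
    exact sub_ne_zero.2 (hκ i hi).symm
  · intro i hi hne
    rw [map_prod]
    refine Finset.prod_eq_zero (Finset.mem_erase.2 ⟨hne, hi⟩) ?_
    simp

theorem eval_cA (q : Fin 3 → Ω) (A : MvPolynomial (Fin 2) Ω) :
    eval q (cA A) = eval ![q 0, q 1] A := by
  have h : ((aeval q).comp cA : MvPolynomial (Fin 2) Ω →ₐ[Ω] Ω) = aeval ![q 0, q 1] := by
    apply MvPolynomial.algHom_ext
    intro i
    fin_cases i <;> simp [cA]
  exact DFunLike.congr_fun h A

theorem eval_cB (q : Fin 3 → Ω) (A : MvPolynomial (Fin 2) Ω) :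
    eval q (cB A) = eval ![q 0, q 2] A := by
  have h : ((aeval q).comp cB : MvPolynomial (Fin 2) Ω →ₐ[Ω] Ω) = aeval ![q 0, q 2] := by
    apply MvPolynomial.algHom_ext
    intro i
    fin_cases i <;> simp [cB]
  exact DFunLike.congr_fun h A

/-- **CW/SP** -/
theorem sp_ : Pool.Agent.N162.CW.StSP := by
  classical
  intro Ω _ _ S lam m A B G hS hlam hrel hA hB hA1 hB1 hz hfin
  by_contra hcon
  obtain ⟨q0, hq0⟩ := hS
  have : Infinite Ω := IsAlgClosed.instInfinite
  obtain ⟨x0, hx0⟩ := (hfin.image (fun q => q 0)).infinite_compl.nonempty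
  have hx0' : ∀ q : Fin 3 → Ω, eval q (cA A) = 0 → eval q (cB B) = 0 → eval q G = 0 → q 0 ≠ x0 := by
    intro q h1 h2 h3 h4
    apply hx0
    exact ⟨q, ⟨by rw [← eval_cA]; exact h1, by rw [← eval_cB]; exact h2, h3⟩, h4⟩
  have hz' : ∀ q ∈ S, eval q (cA A) = 0 ∧ eval q (cB B) = 0 ∧ eval q G = 0 := by
    intro q hq
    rw [eval_cA, eval_cB]
    exact hz q hq
  have hne : ∀ q ∈ S, q 0 - x0 ≠ 0 := by
    intro q hq
    obtain ⟨h1, h2, h3⟩ := hz' q hq
    exact sub_ne_zero.2 (hx0' q h1 h2 h3)
  have hrelj : ∀ j : ℕ, ∀ P : MvPolynomial (Fin 3) Ω, P.totalDegree ≤ m + j →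
      ∑ q ∈ S, lam q / (q 0 - x0) ^ j * eval q P = 0 := by
    intro j
    induction j with
    | zero =>
      intro P hP
      simpa using hrel P hP
    | succ j ih =>
      intro P hP
      obtain ⟨U, V, W, Q, h1, h2⟩ := step hA hB hA1 hB1 hx0' (k := m + (j + 1)) (by omega) hP
      rw [← ih Q (by omega)]
      refine Finset.sum_congr rfl fun q hq => ?_
      rw [h1]
      obtain ⟨h4, h5, h6⟩ := hz' q hq
      simp only [map_add, map_mul, h4, h5, h6, mul_zero, zero_add]
      have h3 := hne q hq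
      have h7 : eval q (ell x0) = q 0 - x0 := by simp [ell]
      rw [h7]
      field_simp
      ring
  obtain ⟨P, hP1, hP2, hP3⟩ := interp S hq0
  have h1 := hrelj S.card P (by omega)
  rw [Finset.sum_eq_single q0] at h1
  · exact (mul_ne_zero (div_ne_zero (hlam q0 hq0) (pow_ne_zero _ (hne q0 hq0))) hP2) h1
  · intro i hi hne
    rw [hP3 i hi hne, mul_zero]
  · intro h
    exact absurd hq0 h

end Pool.Agent.N296.CW
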